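import Pool.Agent.Q115.Clo.Main

set_option autoImplicit false

/-!
The two-sorted algebra of a finite set of operations between two modules over finite rings has a
finite equational basis.

The terms of the two sorts (`Term1`, `Term2`), their values (`eval`), substitution (`subst`) and
the two relations of derivability in two-sorted equational logic (`Derives1`, `Derives2`) are
defined in `Pool.Agent.Q115.Clo.Logic`.
-/

namespace Pool.Agent.Results.MP_2f8e94_al.FiniteBasis

open Pool.Agent.Q115.Clo

universe u v w z t

/-- The two-sorted algebra `M(A, B, F)` (first sort: the `R`-module `A`; second sort: the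
`S`-module `B`; operations `f i` from `ar i` arguments of the first sort to the second sort) has a
finite equational basis: there are a finite set `E₁` of identities of the first sort and a finite
set `E₂` of identities of the second sort, all true in `M(A, B, F)`, from which every identity
true in `M(A, B, F)` can be derived. -/
def HasFiniteBasis (R : Type u) (S : Type v) {A : Type z} {B : Type t} [Ring R] [Ring S]
    [AddCommGroup A] [AddCommGroup B] [Module R A] [Module S B] {ι : Type w} (ar : ι → ℕ)
    (f : ∀ i, (Fin (ar i) → A) → B) : Prop :=
  ∃ (E₁ : Set (Term1 R × Term1 R)) (E₂ : Set (Term2 R S ar × Term2 R S ar)),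
    E₁.Finite ∧ E₂.Finite ∧
    (∀ p ∈ E₁, ∀ x : ℕ → A, p.1.eval x = p.2.eval x) ∧
    (∀ p ∈ E₂, ∀ (x : ℕ → A) (y : ℕ → B), p.1.eval f x y = p.2.eval f x y) ∧
    (∀ s t : Term1 R, (∀ x : ℕ → A, s.eval x = t.eval x) → Derives1 E₁ s t) ∧
    (∀ s t : Term2 R S ar, (∀ (x : ℕ → A) (y : ℕ → B), s.eval f x y = t.eval f x y) →
      Derives2 E₁ E₂ s t)

/-- For all finite rings `R` and `S`, every `R`-module `A`, every `S`-module `B` (finite or not)
and every finite family of operations from `A` to `B`, the associated two-sorted algebra has a
finite equational basis. -/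
theorem result (R : Type u) (S : Type v) [Ring R] [Ring S] [Finite R] [Finite S]
    (A : Type z) (B : Type t) [AddCommGroup A] [AddCommGroup B] [Module R A] [Module S B]
    (ι : Type w) [Finite ι] (ar : ι → ℕ) (f : ∀ i, (Fin (ar i) → A) → B) :
    HasFiniteBasis R S ar f :=
  main f

end Pool.Agent.Results.MP_2f8e94_al.FiniteBasis
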